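import Mathlib

/-!
# Compatible algebras with straightening laws on `J(P)`, for a disjoint union of chains `P`

If the finite poset `P` is a disjoint union of chains, then every compatible monomial algebra with
straightening laws on the distributive lattice `J(P)` has the Hibi relations
`φ(I) φ(I') = φ(I ∩ I') φ(I ∪ I')`, the straightening relations of the toric ring of the order
polytope.
-/

set_option autoImplicit false

namespace Pool.Agent.Results.MP_9c3df6_al.HibiUnique

universe u v w

section Defs

/-- `P` is a disjoint union of chains: comparability is transitive. -/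
def IsUnionOfChains (P : Type u) [PartialOrder P] : Prop :=
  ∀ a b c : P, (a ≤ b ∨ b ≤ a) → (b ≤ c ∨ c ≤ b) → (a ≤ c ∨ c ≤ a)

variable {P : Type u} [PartialOrder P] {σ : Type v} (K : Type w) [Field K]

/-- The element `w_I t` of `K[x_i : i ∈ σ][t]`, where `w_I` is the monomial with exponent `e I`. -/
noncomputable def phi (e : LowerSet P → (σ →₀ ℕ)) (I : LowerSet P) :
    Polynomial (MvPolynomial σ K) :=
  Polynomial.C (MvPolynomial.monomial (e I) (1 : K)) * Polynomial.X

/-- The standard monomial of a multichain (a multiset of pairwise comparable elements). -/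
noncomputable def standard (e : LowerSet P → (σ →₀ ℕ))
    (s : {s : Multiset (LowerSet P) // IsChain (· ≤ ·) {I | I ∈ s}}) :
    Polynomial (MvPolynomial σ K) :=
  (s.1.map (phi K e)).prod

/-- `K[Ω]`, the subalgebra generated by the elements `w_I t`, is a compatible algebra with
straightening laws on `J(P)`: the generators are distinct, the standard monomials form a `K`-basis
of `K[Ω]`, and for incomparable `I`, `I'` the expansion of `φ(I) φ(I')` in standard monomials is
`φ(J) φ(J')` with `J ⊆ I ∩ I'` and `I ∪ I' ⊆ J'`. -/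
structure IsCompatibleASL (e : LowerSet P → (σ →₀ ℕ)) : Prop where
  injective : Function.Injective (phi K e)
  linearIndependent : LinearIndependent K (standard K e)
  span_eq : Submodule.span K (Set.range (standard K e)) =
    Subalgebra.toSubmodule (Algebra.adjoin K (Set.range (phi K e)))
  compatible : ∀ I I' : LowerSet P, ¬ I ≤ I' → ¬ I' ≤ I →
    ∃ J J' : LowerSet P, J ≤ I ⊓ I' ∧ I ⊔ I' ≤ J' ∧ phi K e I * phi K e I' = phi K e J * phi K e J'

/-- The straightening relations of the two rings coincide: for incomparable `I`, `I'` and `J ≤ J'`,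
the relation `φ(I) φ(I') = φ(J) φ(J')` holds for the first one if and only if it holds for the
second one. -/
def SameRelations {τ : Type*} (e : LowerSet P → (σ →₀ ℕ)) (e' : LowerSet P → (τ →₀ ℕ)) : Prop :=
  ∀ I I' J J' : LowerSet P, ¬ I ≤ I' → ¬ I' ≤ I → J ≤ J' →
    (phi K e I * phi K e I' = phi K e J * phi K e J' ↔
      phi K e' I * phi K e' I' = phi K e' J * phi K e' J')

open Classical in
/-- The exponent of `x(W)`, the product of the variables `x_p`, `p ∈ W`. -/
noncomputable def expo [Fintype P] (W : Set P) : P →₀ ℕ :=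
  ∑ p ∈ Finset.univ.filter (· ∈ W), Finsupp.single p 1

/-- The exponents of the generators `x(I) t` of the toric ring `K[O(P)]` of the order polytope. -/
noncomputable def orderExpo [Fintype P] (I : LowerSet P) : P →₀ ℕ :=
  expo (I : Set P)

end Defs

section Proofs

variable {P : Type u} [PartialOrder P]

lemma comp_total (I I' : LowerSet P)
    {p q : P} (hpq : p ≤ q ∨ q ≤ p) (hq : q ∈ I) (hq' : q ∉ I') (hp : p ∈ I') : p ∈ I := by
  rcases hpq with h | h
  · exact I.lower h hq
  · exact absurd (I'.lower h hp) hq'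

/-- the component of `p` satisfies `I ⊆ I'` -/
def Below (I I' : LowerSet P) (p : P) : Prop := ∀ q, (p ≤ q ∨ q ≤ p) → q ∈ I → q ∈ I'

lemma below_congr (hP : IsUnionOfChains P) (I I' : LowerSet P) {p q : P} (h : p ≤ q ∨ q ≤ p) :
    Below I I' p ↔ Below I I' q := by
  constructor
  · intro hp r hr hI
    exact hp r (hP p q r h hr) hI
  · intro hq r hr hI
    exact hq r (hP q p r h.symm hr) hI

lemma not_below (I I' : LowerSet P) {p : P} (h : ¬ Below I I' p)
    (hp : p ∈ I') : p ∈ I := by
  unfold Below at h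
  push Not at h
  obtain ⟨q, hq, hqI, hqI'⟩ := h
  exact comp_total I I' hq hqI hqI' hp

/-- top on the components where `I ⊆ I'`, bottom elsewhere -/
def XX (hP : IsUnionOfChains P) (I I' J J' : LowerSet P) : LowerSet P where
  carrier := {p | p ∈ J ∨ (p ∈ J' ∧ Below I I' p)}
  lower' := by
    rintro a b hba (h | ⟨h1, h2⟩)
    · exact Or.inl (J.lower hba h)
    · exact Or.inr ⟨J'.lower hba h1, (below_congr hP I I' (Or.inl hba)).2 h2⟩

/-- bottom on the components where `I ⊆ I'`, top elsewhere -/
def YY (hP : IsUnionOfChains P) (I I' J J' : LowerSet P) : LowerSet P where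
  carrier := {p | p ∈ J ∨ (p ∈ J' ∧ ¬ Below I I' p)}
  lower' := by
    rintro a b hba (h | ⟨h1, h2⟩)
    · exact Or.inl (J.lower hba h)
    · exact Or.inr ⟨J'.lower hba h1, fun h => h2 ((below_congr hP I I' (Or.inl hba)).1 h)⟩

lemma mem_XX {hP : IsUnionOfChains P} {I I' J J' : LowerSet P} {p : P} :
    p ∈ XX hP I I' J J' ↔ p ∈ J ∨ (p ∈ J' ∧ Below I I' p) := Iff.rfl

lemma mem_YY {hP : IsUnionOfChains P} {I I' J J' : LowerSet P} {p : P} :
    p ∈ YY hP I I' J J' ↔ p ∈ J ∨ (p ∈ J' ∧ ¬ Below I I' p) := Iff.rfl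

open Classical in
/-- the cardinality of the symmetric difference -/
noncomputable def sz [Fintype P] (I I' : LowerSet P) : ℕ :=
  ∑ p : P, if (p ∈ I ↔ p ∈ I') then 0 else 1

lemma sz_comm [Fintype P] (I I' : LowerSet P) : sz I I' = sz I' I := by
  unfold sz
  refine Finset.sum_congr rfl fun p _ => ?_
  by_cases h : p ∈ I <;> by_cases h' : p ∈ I' <;> simp [h, h']

lemma sz_add [Fintype P] (hP : IsUnionOfChains P) {I I' J J' : LowerSet P} (h1 : J ≤ I ⊓ I')
    (h2 : I ⊔ I' ≤ J') :
    sz I (XX hP I I' J J') + sz I' (YY hP I I' J J') = sz J J' + sz I I' := by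
  unfold sz
  rw [← Finset.sum_add_distrib, ← Finset.sum_add_distrib]
  refine Finset.sum_congr rfl fun p _ => ?_
  have a1 : p ∈ J → p ∈ I := fun h => (h1 h).1
  have a2 : p ∈ J → p ∈ I' := fun h => (h1 h).2
  have a3 : p ∈ I → p ∈ J' := fun h => h2 (Or.inl h)
  have a4 : p ∈ I' → p ∈ J' := fun h => h2 (Or.inr h)
  have a5 : Below I I' p → p ∈ I → p ∈ I' := fun h => h p (Or.inl le_rfl)
  have a6 : ¬ Below I I' p → p ∈ I' → p ∈ I := fun h => not_below I I' h
  have m1 : p ∈ XX hP I I' J J' ↔ p ∈ J ∨ (p ∈ J' ∧ Below I I' p) := Iff.rfl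
  have m2 : p ∈ YY hP I I' J J' ↔ p ∈ J ∨ (p ∈ J' ∧ ¬ Below I I' p) := Iff.rfl
  by_cases b1 : p ∈ J <;> by_cases b2 : p ∈ J' <;> by_cases b3 : p ∈ I <;>
    by_cases b4 : p ∈ I' <;> by_cases b5 : Below I I' p <;> simp_all

lemma sz_lt [Fintype P] {I I' J J' : LowerSet P} (h1 : J ≤ I ⊓ I')
    (h2 : I ⊔ I' ≤ J') (hne : ¬ (J = I ⊓ I' ∧ J' = I ⊔ I')) : sz I I' < sz J J' := by
  unfold sz
  have key : ∀ p : P, ((p ∈ I ↔ p ∈ I') ∨ ¬ (p ∈ J ↔ p ∈ J')) := by
    intro p
    have a1 : p ∈ J → p ∈ I := fun h => (h1 h).1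
    have a2 : p ∈ J → p ∈ I' := fun h => (h1 h).2
    have a3 : p ∈ I → p ∈ J' := fun h => h2 (Or.inl h)
    have a4 : p ∈ I' → p ∈ J' := fun h => h2 (Or.inr h)
    tauto
  obtain ⟨p, hp, hp'⟩ : ∃ p : P, (p ∈ I ↔ p ∈ I') ∧ ¬ (p ∈ J ↔ p ∈ J') := by
    by_contra hcon
    push Not at hcon
    apply hne
    constructor
    · refine le_antisymm h1 ?_
      intro p hp
      have h3 : p ∈ I ∧ p ∈ I' := hp
      exact (hcon p ⟨fun _ => h3.2, fun _ => h3.1⟩).2 (h2 (Or.inl h3.1))
    · refine le_antisymm ?_ h2
      intro p hp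
      by_contra h3
      have h4 : p ∉ I ∧ p ∉ I' := ⟨fun h => h3 (Or.inl h), fun h => h3 (Or.inr h)⟩
      have h5 := (hcon p ⟨fun h => absurd h h4.1, fun h => absurd h h4.2⟩).2 hp
      exact h4.1 (h1 h5).1
  refine Finset.sum_lt_sum (fun q _ => ?_) ⟨p, Finset.mem_univ _, ?_⟩
  · rcases key q with h | h
    · rw [if_pos h]; exact Nat.zero_le _
    · rw [if_neg h]; split <;> omega
  · rw [if_pos hp, if_neg hp']; omega

variable {σ : Type v} {K : Type w} [Field K] {e : LowerSet P → (σ →₀ ℕ)}

lemma chain_triple {A B C : LowerSet P} (h1 : A ≤ B) (h2 : B ≤ C) :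
    IsChain (· ≤ ·) {I | I ∈ ({A, B, C} : Multiset (LowerSet P))} := by
  have h3 := h1.trans h2
  intro x hx y hy _
  simp only [Multiset.insert_eq_cons, Multiset.mem_cons, Multiset.mem_singleton,
    Set.mem_ofPred_eq] at hx hy
  rcases hx with rfl | rfl | rfl <;> rcases hy with rfl | rfl | rfl <;> simp_all

lemma chain_pair {A B : LowerSet P} (h1 : A ≤ B) :
    IsChain (· ≤ ·) {I | I ∈ ({A, B} : Multiset (LowerSet P))} := by
  intro x hx y hy _
  simp only [Multiset.insert_eq_cons, Multiset.mem_cons, Multiset.mem_singleton,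
    Set.mem_ofPred_eq] at hx hy
  rcases hx with rfl | rfl <;> rcases hy with rfl | rfl <;> simp_all

lemma triple_eq (h : LinearIndependent K (standard K e)) {A B C A' B' C' : LowerSet P}
    (h1 : A ≤ B) (h2 : B ≤ C) (h1' : A' ≤ B') (h2' : B' ≤ C')
    (heq : phi K e A * phi K e B * phi K e C = phi K e A' * phi K e B' * phi K e C') :
    A = A' ∧ B = B' ∧ C = C' := by
  have h3 := h.injective (a₁ := ⟨{A, B, C}, chain_triple h1 h2⟩)
    (a₂ := ⟨{A', B', C'}, chain_triple h1' h2'⟩) (by
      simpa [standard, mul_assoc] using heq)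
  have h4 : ({A, B, C} : Multiset (LowerSet P)) = {A', B', C'} := congrArg Subtype.val h3
  have hA : A = A' := by
    apply le_antisymm
    · have : A' ∈ ({A, B, C} : Multiset (LowerSet P)) := by rw [h4]; simp
      simp only [Multiset.insert_eq_cons, Multiset.mem_cons, Multiset.mem_singleton] at this
      rcases this with h | h | h
      · exact h.ge
      · exact h1.trans h.ge
      · exact (h1.trans h2).trans h.ge
    · have : A ∈ ({A', B', C'} : Multiset (LowerSet P)) := by rw [← h4]; simp
      simp only [Multiset.insert_eq_cons, Multiset.mem_cons, Multiset.mem_singleton] at this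
      rcases this with h | h | h
      · exact h.ge
      · exact h1'.trans h.ge
      · exact (h1'.trans h2').trans h.ge
  have hC : C = C' := by
    apply le_antisymm
    · have : C ∈ ({A', B', C'} : Multiset (LowerSet P)) := by rw [← h4]; simp
      simp only [Multiset.insert_eq_cons, Multiset.mem_cons, Multiset.mem_singleton] at this
      rcases this with h | h | h
      · exact h.le.trans (h1'.trans h2')
      · exact h.le.trans h2'
      · exact h.le
    · have : C' ∈ ({A, B, C} : Multiset (LowerSet P)) := by rw [h4]; simp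
      simp only [Multiset.insert_eq_cons, Multiset.mem_cons, Multiset.mem_singleton] at this
      rcases this with h | h | h
      · exact h.le.trans (h1.trans h2)
      · exact h.le.trans h2
      · exact h.le
  refine ⟨hA, ?_, hC⟩
  subst hA hC
  simp only [Multiset.insert_eq_cons, Multiset.cons_inj_right] at h4
  rw [Multiset.cons_eq_cons] at h4
  rcases h4 with ⟨h, -⟩ | ⟨-, cs, h5, h6⟩
  · exact h
  · rw [Multiset.singleton_eq_cons_iff] at h5 h6
    exact h6.1.symm.trans h5.1

lemma pair_eq (h : LinearIndependent K (standard K e)) {A B A' B' : LowerSet P}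
    (h1 : A ≤ B) (h1' : A' ≤ B') (heq : phi K e A * phi K e B = phi K e A' * phi K e B') :
    A = A' ∧ B = B' := by
  have h3 := h.injective (a₁ := ⟨{A, B}, chain_pair h1⟩)
    (a₂ := ⟨{A', B'}, chain_pair h1'⟩) (by
      simpa [standard] using heq)
  have h4 : ({A, B} : Multiset (LowerSet P)) = {A', B'} := congrArg Subtype.val h3
  have hA : A = A' := by
    apply le_antisymm
    · have : A' ∈ ({A, B} : Multiset (LowerSet P)) := by rw [h4]; simp
      simp only [Multiset.insert_eq_cons, Multiset.mem_cons, Multiset.mem_singleton] at this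
      rcases this with h | h
      · exact h.ge
      · exact h1.trans h.ge
    · have : A ∈ ({A', B'} : Multiset (LowerSet P)) := by rw [← h4]; simp
      simp only [Multiset.insert_eq_cons, Multiset.mem_cons, Multiset.mem_singleton] at this
      rcases this with h | h
      · exact h.ge
      · exact h1'.trans h.ge
  refine ⟨hA, ?_⟩
  subst hA
  simpa [Multiset.insert_eq_cons] using h4

lemma sz_le_card [Fintype P] (I I' : LowerSet P) : sz I I' ≤ Fintype.card P := by
  unfold sz
  refine (Finset.sum_le_sum (g := fun _ => 1) fun p _ => ?_).trans (by simp)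
  split <;> omega

/-- **Key theorem**: the Hibi relations hold for all pairs. -/
theorem hibi [Fintype P] (hP : IsUnionOfChains P) (he : IsCompatibleASL K e) :
    ∀ (N : ℕ) (I I' : LowerSet P), Fintype.card P - sz I I' = N →
      phi K e I * phi K e I' = phi K e (I ⊓ I') * phi K e (I ⊔ I') := by
  intro N
  induction N using Nat.strong_induction_on with
  | _ N ih =>
    intro I I' hN
    by_cases h1 : I ≤ I'
    · rw [inf_eq_left.2 h1, sup_eq_right.2 h1]
    by_cases h2 : I' ≤ I
    · rw [inf_eq_right.2 h2, sup_eq_left.2 h2, mul_comm]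
    obtain ⟨J, J', hJ, hJ', hrel⟩ := he.compatible I I' h1 h2
    by_cases hne : J = I ⊓ I' ∧ J' = I ⊔ I'
    · rw [hrel, hne.1, hne.2]
    exfalso
    have hlt := sz_lt hJ hJ' hne
    have hadd := sz_add hP hJ hJ'
    have hJJ : J ≤ J' := hJ.trans (inf_le_left.trans (le_sup_left.trans hJ'))
    have hcard := sz_le_card J J'
    have hJX : J ≤ XX hP I I' J J' := fun p hp => Or.inl hp
    have hXJ : XX hP I I' J J' ≤ J' := by
      rintro p (hp | hp)
      · exact hJJ hp
      · exact hp.1
    have hJY : J ≤ YY hP I I' J J' := fun p hp => Or.inl hp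
    have hYJ : YY hP I I' J J' ≤ J' := by
      rintro p (hp | hp)
      · exact hJJ hp
      · exact hp.1
    have hcase : sz I I' < sz I (XX hP I I' J J') ∨ sz I I' < sz I' (YY hP I I' J J') := by
      omega
    rcases hcase with hc | hc
    · have hc2 := sz_le_card I (XX hP I I' J J')
      have h3 := ih _ (by omega) I (XX hP I I' J J') rfl
      have h4 : I ⊓ XX hP I I' J J' ≤ I' := by
        rintro p ⟨hp, hp' | hp'⟩
        · exact (hJ hp').2
        · exact hp'.2 p (Or.inl le_rfl) hp
      have h5 : I' ≤ I ⊔ XX hP I I' J J' := by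
        intro p hp
        by_cases hb : Below I I' p
        · exact Or.inr (Or.inr ⟨hJ' (Or.inr hp), hb⟩)
        · exact Or.inl (not_below I I' hb hp)
      obtain ⟨h6, h7, h8⟩ := triple_eq he.linearIndependent hJX hXJ h4 h5 (by
        calc phi K e J * phi K e (XX hP I I' J J') * phi K e J'
            = (phi K e J * phi K e J') * phi K e (XX hP I I' J J') := by ring
          _ = phi K e I' * (phi K e I * phi K e (XX hP I I' J J')) := by rw [← hrel]; ring
          _ = _ := by rw [h3]; ring)
      rw [h7] at h6 h8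
      exact hne ⟨h6, h8⟩
    · have hc2 := sz_le_card I' (YY hP I I' J J')
      have h3 := ih _ (by omega) I' (YY hP I I' J J') rfl
      have h4 : I' ⊓ YY hP I I' J J' ≤ I := by
        rintro p ⟨hp, hp' | hp'⟩
        · exact (hJ hp').1
        · exact not_below I I' hp'.2 hp
      have h5 : I ≤ I' ⊔ YY hP I I' J J' := by
        intro p hp
        by_cases hb : Below I I' p
        · exact Or.inl (hb p (Or.inl le_rfl) hp)
        · exact Or.inr (Or.inr ⟨hJ' (Or.inl hp), hb⟩)
      obtain ⟨h6, h7, h8⟩ := triple_eq he.linearIndependent hJY hYJ h4 h5 (by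
        calc phi K e J * phi K e (YY hP I I' J J') * phi K e J'
            = (phi K e J * phi K e J') * phi K e (YY hP I I' J J') := by ring
          _ = phi K e I * (phi K e I' * phi K e (YY hP I I' J J')) := by rw [← hrel]; ring
          _ = _ := by rw [h3]; ring)
      rw [h7] at h6 h8
      exact hne ⟨by rw [h6, inf_comm], by rw [h8, sup_comm]⟩

lemma phi_mul_eq {τ : Type*} {e : LowerSet P → (τ →₀ ℕ)} {I I' J J' : LowerSet P} :
    phi K e I * phi K e I' = phi K e J * phi K e J' ↔ e I + e I' = e J + e J' := by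
  have h : ∀ A B : LowerSet P, phi K e A * phi K e B =
      Polynomial.C (MvPolynomial.monomial (e A + e B) (1 : K)) * Polynomial.X ^ 2 := by
    intro A B
    unfold phi
    have : (MvPolynomial.monomial (e A + e B) (1 : K)) =
        MvPolynomial.monomial (e A) (1 : K) * MvPolynomial.monomial (e B) (1 : K) := by
      rw [MvPolynomial.monomial_mul, one_mul]
    rw [this, map_mul]
    ring
  rw [h, h]
  constructor
  · intro h1
    have h2 := congrArg (fun q => Polynomial.coeff q 2) h1
    simp only [Polynomial.coeff_C_mul, Polynomial.coeff_X_pow, if_true, mul_one] at h2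
    exact (MvPolynomial.monomial_left_injective (one_ne_zero (α := K))) h2
  · intro h1
    rw [h1]

lemma orderExpo_apply [Fintype P] (I : LowerSet P) (p : P) [Decidable (p ∈ I)] :
    orderExpo I p = if p ∈ I then 1 else 0 := by
  classical
  unfold orderExpo expo
  rw [Finsupp.finsetSum_apply]
  by_cases h : p ∈ I
  · rw [if_pos h, Finset.sum_eq_single p]
    · simp
    · intro q _ hq
      simp [hq]
    · intro h1
      exact absurd (Finset.mem_filter.2 ⟨Finset.mem_univ _, h⟩) h1
  · rw [if_neg h]
    refine Finset.sum_eq_zero fun q hq => ?_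
    have hq' : q ∈ I := (Finset.mem_filter.1 hq).2
    rw [Finsupp.single_apply, if_neg]
    rintro rfl
    exact h hq'

lemma order_iff [Fintype P] {I I' J J' : LowerSet P} (hJ : J ≤ J') :
    orderExpo I + orderExpo I' = orderExpo J + orderExpo J' ↔ J = I ⊓ I' ∧ J' = I ⊔ I' := by
  classical
  constructor
  · intro h
    have h1 : ∀ p : P, (if p ∈ I then 1 else 0) + (if p ∈ I' then 1 else 0) =
        (if p ∈ J then 1 else 0) + (if p ∈ J' then 1 else 0) := by
      intro p
      have := DFunLike.congr_fun h p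
      rw [Finsupp.add_apply, Finsupp.add_apply, orderExpo_apply, orderExpo_apply,
        orderExpo_apply, orderExpo_apply] at this
      exact this
    constructor
    · ext p
      have h2 := h1 p
      have h3 : p ∈ J → p ∈ J' := fun h => hJ h
      change p ∈ J ↔ (p ∈ I ∧ p ∈ I')
      by_cases b1 : p ∈ I <;> by_cases b2 : p ∈ I' <;> by_cases b3 : p ∈ J <;>
        by_cases b4 : p ∈ J' <;> simp_all
    · ext p
      have h2 := h1 p
      have h3 : p ∈ J → p ∈ J' := fun h => hJ h
      change p ∈ J' ↔ (p ∈ I ∨ p ∈ I')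
      by_cases b1 : p ∈ I <;> by_cases b2 : p ∈ I' <;> by_cases b3 : p ∈ J <;>
        by_cases b4 : p ∈ J' <;> simp_all
  · rintro ⟨rfl, rfl⟩
    ext p
    rw [Finsupp.add_apply, Finsupp.add_apply, orderExpo_apply, orderExpo_apply,
      orderExpo_apply, orderExpo_apply]
    have m1 : p ∈ I ⊓ I' ↔ (p ∈ I ∧ p ∈ I') := Iff.rfl
    have m2 : p ∈ I ⊔ I' ↔ (p ∈ I ∨ p ∈ I') := Iff.rfl
    by_cases b1 : p ∈ I <;> by_cases b2 : p ∈ I' <;> simp [m1, m2, b1, b2]

end Proofs

/-- Let the finite poset `P` be a disjoint union of chains. Then every compatible monomial algebra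
with straightening laws on `J(P)` has the same straightening relations as the toric ring `K[O(P)]`
of the order polytope; explicitly, all its straightening relations are
`φ(I) φ(I') = φ(I ∩ I') φ(I ∪ I')`. -/
theorem result (P : Type u) [PartialOrder P] [Fintype P] (hP : IsUnionOfChains P)
    (K : Type w) [Field K] (σ : Type v) [Finite σ] (e : LowerSet P → (σ →₀ ℕ))
    (he : IsCompatibleASL K e) :
    SameRelations K e (orderExpo (P := P)) ∧
      ∀ I I' : LowerSet P, phi K e I * phi K e I' = phi K e (I ⊓ I') * phi K e (I ⊔ I') := by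
  have hh := fun I I' => hibi hP he _ I I' rfl
  refine ⟨?_, hh⟩
  intro I I' J J' _ _ hJ
  rw [phi_mul_eq (e := orderExpo (P := P)), order_iff hJ]
  constructor
  · intro h
    rw [hh I I'] at h
    obtain ⟨h1, h2⟩ := pair_eq he.linearIndependent
      (inf_le_left.trans le_sup_left : I ⊓ I' ≤ I ⊔ I') hJ h
    exact ⟨h1.symm, h2.symm⟩
  · rintro ⟨rfl, rfl⟩
    exact hh I I'

end Pool.Agent.Results.MP_9c3df6_al.HibiUnique
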